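import Pool.Agent.H31.MTP.E4

/-!
# E3. The case `j = 3` (MP_76b9e7_nt, board mtp_modules)
-/

set_option autoImplicit false

open Finset Real

namespace Pool.Agent.H31.MTP

open Pool.Agent.H31.MP
open Pool.Agent.H30.BV (NX)
open Pool.Agent.H21.PI (X gam)

lemma exists_prime_of_X {k : ℕ} (h : 0 < X k) :
    ∃ p : ℕ, p.Prime ∧ k ≤ p ∧ p ≤ k + 1 + ⌊Real.log (k : ℝ)⌋₊ := by
  unfold X at h
  obtain ⟨p, hp⟩ := Finset.card_pos.1 h
  rw [mem_filter, mem_Icc] at hp
  exact ⟨p, hp.2, hp.1.1, hp.1.2⟩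

/-- if there are no primes in `(s - T + l, s + 2 + l]` then the windows before `s` contain one more
prime than the window at `s + 1` -/
lemma X_before {s T m : ℕ} (hs : s.Prime) (hm1 : s ≤ m + T) (hm2 : m ≤ s) (hT : 2 * T + 2 ≤ s)
    (hTl : T ≤ ⌊Real.log ((s + 1 : ℕ) : ℝ)⌋₊)
    (hno : ∀ p : ℕ, p.Prime → s + ⌊Real.log ((s + 1 : ℕ) : ℝ)⌋₊ < p + T →
      p ≤ s + 2 + ⌊Real.log ((s + 1 : ℕ) : ℝ)⌋₊ → False) :
    X (s + 1) + 1 ≤ X m := by
  have hlog : ⌊Real.log ((s + 1 : ℕ) : ℝ)⌋₊ ≤ ⌊Real.log (m : ℝ)⌋₊ + 1 := by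
    have hm0 : 1 ≤ m := by omega
    have hmr : (1 : ℝ) ≤ m := by exact_mod_cast hm0
    have h1 : ((s + 1 : ℕ) : ℝ) ≤ Real.exp 1 * m := by
      have h2 : s + 1 ≤ 2 * m := by omega
      have h3 : ((s + 1 : ℕ) : ℝ) ≤ 2 * m := by exact_mod_cast h2
      have h4 := Real.exp_one_gt_d9
      nlinarith
    have h5 : Real.log ((s + 1 : ℕ) : ℝ) ≤ Real.log m + 1 := by
      calc Real.log ((s + 1 : ℕ) : ℝ) ≤ Real.log (Real.exp 1 * m) :=
            Real.log_le_log (by positivity) h1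
        _ = Real.log m + 1 := by
            rw [Real.log_mul (Real.exp_pos 1).ne' (by positivity), Real.log_exp]
            ring
    calc ⌊Real.log ((s + 1 : ℕ) : ℝ)⌋₊ ≤ ⌊Real.log (m : ℝ) + 1⌋₊ := Nat.floor_mono h5
      _ = ⌊Real.log (m : ℝ)⌋₊ + 1 := Nat.floor_add_one (Real.log_nonneg hmr)
  unfold X
  have h1 : s ∉ (Icc (s + 1) (s + 1 + 1 + ⌊Real.log ((s + 1 : ℕ) : ℝ)⌋₊)).filter Nat.Prime := by
    rw [mem_filter, mem_Icc]
    omega
  rw [← card_insert_of_notMem h1]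
  apply card_le_card
  intro p hp
  rw [mem_insert, mem_filter, mem_Icc] at hp
  rw [mem_filter, mem_Icc]
  rcases hp with rfl | ⟨⟨h2, h3⟩, h4⟩
  · exact ⟨⟨by omega, by omega⟩, hs⟩
  · refine ⟨⟨by omega, ?_⟩, h4⟩
    by_contra h5
    exact hno p h4 (by omega) (by omega)

/-- the combinatorial inequality for one `n` in the dense zone -/
lemma one_le_pairs {Z : ℝ} (hL : 5000000 ≤ Real.log Z) {n T a b m m' : ℕ}
    (hn1 : Z / 4 ≤ n) (hn2 : n ≤ NX Z) (hT : T = ⌊Real.log Z / 1000⌋₊) (ha : a = ⌈2 * Real.log Z⌉₊)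
    (hm : m = ⌊Real.log Z⌋₊ + 4) (hb : b = ⌊Real.log Z⌋₊ - T - 4) (hm' : m' = T + 12)
    (hX : ∀ q : ℕ, n ≤ q → (q : ℝ) ≤ n + 10 * Real.log Z → 3 < X q) :
    1 ≤ ∑ e ∈ Ico a (a + m), ∑ s ∈ Ico b (b + m'), ip (n + e) * ip (n + (e + s)) +
      1 / (T + 1) * ∑ q ∈ Ico (a - T) (a + m), ((X (n + q) : ℝ) - 4) := by
  have hZ0 : 0 < Z := by
    by_contra h
    have h1 : Real.log Z ≤ 0 ∨ 0 ≤ Z := by
      rcases le_total 0 Z with h2 | h2
      · exact Or.inr h2
      · refine Or.inl ?_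
        exfalso
        have h3 : (0 : ℝ) ≤ n := Nat.cast_nonneg n
        rcases eq_or_lt_of_le h2 with h4 | h4
        · rw [h4, Real.log_zero] at hL
          linarith
        · have h5 : NX Z = 0 := by
            unfold NX
            exact Nat.ceil_eq_zero.2 (by linarith)
          have h6 : n = 0 := by omega
          have h7 := hX 0 (by omega) (by rw [h6]; push_cast; linarith)
          unfold X at h7
          have h8 : ((Icc 0 (0 + 1 + ⌊Real.log ((0 : ℕ) : ℝ)⌋₊)).filter Nat.Prime) = ∅ := by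
            rw [Nat.cast_zero, Real.log_zero, Nat.floor_zero]
            decide
          rw [h8] at h7
          simp at h7
    rcases h1 with h1 | h1
    · linarith
    · have h2 : Z = 0 := le_antisymm (not_lt.1 h) h1
      rw [h2, Real.log_zero] at hL
      linarith
  have hZ : (5000000 : ℝ) ≤ Z := by
    have h1 := Real.log_le_sub_one_of_pos hZ0
    linarith
  have hfl : (⌊Real.log Z⌋₊ : ℝ) ≤ Real.log Z := Nat.floor_le (by linarith)
  have hfl2 : Real.log Z < ⌊Real.log Z⌋₊ + 1 := Nat.lt_floor_add_one _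
  have hT1 : (T : ℝ) ≤ Real.log Z / 1000 := by rw [hT]; exact Nat.floor_le (by linarith)
  have hT2 : Real.log Z / 1000 < T + 1 := by rw [hT]; exact Nat.lt_floor_add_one _
  have ha1 : 2 * Real.log Z ≤ a := by rw [ha]; exact Nat.le_ceil _
  have ha2 : (a : ℝ) < 2 * Real.log Z + 1 := by rw [ha]; exact Nat.ceil_lt_add_one (by linarith)
  have hTL : T + 10 ≤ ⌊Real.log Z⌋₊ := by
    have : ((T + 10 : ℕ) : ℝ) < ((⌊Real.log Z⌋₊ + 1 : ℕ) : ℝ) := by push_cast; linarith
    have h2 : T + 10 < ⌊Real.log Z⌋₊ + 1 := by exact_mod_cast this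
    omega
  have hTa : T ≤ a := by
    have : (T : ℝ) ≤ (a : ℝ) := by linarith
    exact_mod_cast this
  have hTa2 : 2 * T + 2 ≤ a := by
    have : ((2 * T + 2 : ℕ) : ℝ) ≤ (a : ℝ) := by push_cast; linarith
    exact_mod_cast this
  have hn0 : 1 ≤ n := by
    by_contra h
    have h1 : n = 0 := by omega
    rw [h1] at hn1
    push_cast at hn1
    linarith
  have hmr : (m : ℝ) ≤ Real.log Z + 4 := by rw [hm]; push_cast; linarith
  -- all windows in the range have at least four primes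
  have hX4 : ∀ q ∈ Ico (a - T) (a + m), (0 : ℝ) ≤ (X (n + q) : ℝ) - 4 := by
    intro q hq
    rw [mem_Ico] at hq
    have h1 : (q : ℝ) ≤ 10 * Real.log Z := by
      have h2 : (q : ℝ) ≤ ((a + m : ℕ) : ℝ) := by exact_mod_cast hq.2.le
      push_cast at h2
      linarith
    have h3 := hX (n + q) (by omega) (by push_cast; linarith)
    have h4 : (4 : ℝ) ≤ X (n + q) := by exact_mod_cast h3
    linarith
  have hN1 : ∀ e ∈ Ico a (a + m), 0 ≤ ∑ s ∈ Ico b (b + m'), ip (n + e) * ip (n + (e + s)) :=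
    fun e _ => Finset.sum_nonneg fun s _ => mul_nonneg (ip_nonneg _) (ip_nonneg _)
  -- the first prime
  obtain ⟨p₀, hp₀, h1, h2⟩ := exists_prime_of_X (k := n + a)
    (by have := hX (n + a) (by omega) (by push_cast; linarith); omega)
  have hfa := floor_log_le (by linarith) hn2 (q := a) (by linarith) hn0
  obtain ⟨e₀, he₀⟩ : ∃ e₀, p₀ = n + e₀ := ⟨p₀ - n, by omega⟩
  have he1 : a ≤ e₀ := by omega
  have he2 : e₀ < a + m := by omega
  have heR : (e₀ : ℝ) ≤ 3 * Real.log Z + 5 := by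
    have h3 : (e₀ : ℝ) ≤ ((a + m : ℕ) : ℝ) := by exact_mod_cast he2.le
    push_cast at h3
    linarith
  set l : ℕ := ⌊Real.log ((p₀ + 1 : ℕ) : ℝ)⌋₊ with hl
  have hl1 : l ≤ ⌊Real.log Z⌋₊ + 2 := by
    have := floor_log_le (by linarith) hn2 (q := e₀ + 1) (by push_cast; linarith) hn0
    rw [hl, he₀]
    exact this
  have hl2 : ⌊Real.log Z⌋₊ ≤ l + 2 := by
    have h3 : Real.log Z - 2 ≤ Real.log ((p₀ + 1 : ℕ) : ℝ) := by
      have h4 : Z * Real.exp (-2) ≤ ((p₀ + 1 : ℕ) : ℝ) := by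
        have h5 : Real.exp (-2) ≤ 1 / 4 := by
          have h6 : (4 : ℝ) ≤ Real.exp 2 := by
            have h7 := Real.exp_one_gt_d9
            have h8 : Real.exp 2 = Real.exp 1 * Real.exp 1 := by
              rw [← Real.exp_add]
              norm_num
            rw [h8]
            nlinarith
          rw [Real.exp_neg, ← one_div]
          exact one_div_le_one_div_of_le (by norm_num) h6
        have h9 : ((p₀ + 1 : ℕ) : ℝ) = n + e₀ + 1 := by rw [he₀]; push_cast; ring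
        rw [h9]
        have h10 : (0 : ℝ) ≤ e₀ := Nat.cast_nonneg _
        nlinarith
      calc Real.log Z - 2 = Real.log (Z * Real.exp (-2)) := by
            rw [Real.log_mul hZ0.ne' (Real.exp_pos _).ne', Real.log_exp]
            ring
        _ ≤ _ := Real.log_le_log (by positivity) h4
    have h4 : ⌊Real.log Z⌋₊ ≤ ⌊Real.log ((p₀ + 1 : ℕ) : ℝ) + 2⌋₊ :=
      Nat.floor_mono (by linarith)
    have h5 : ⌊Real.log ((p₀ + 1 : ℕ) : ℝ) + 2⌋₊ = l + 2 := by
      have := Nat.floor_add_natCast (a := Real.log ((p₀ + 1 : ℕ) : ℝ)) (by linarith) 2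
      exact_mod_cast this
    omega
  by_cases hA : ∃ p : ℕ, p.Prime ∧ p₀ + l < p + T ∧ p ≤ p₀ + 2 + l
  · obtain ⟨p, hp, h3, h4⟩ := hA
    have h5 : 1 ≤ ∑ e ∈ Ico a (a + m), ∑ s ∈ Ico b (b + m'), ip (n + e) * ip (n + (e + s)) := by
      have h6 : ip (n + e₀) * ip (n + (e₀ + (p - p₀))) = 1 := by
        have h7 : n + (e₀ + (p - p₀)) = p := by omega
        rw [h7, ← he₀]
        unfold ip
        rw [if_pos hp₀, if_pos hp, mul_one]
      calc (1 : ℝ) = ip (n + e₀) * ip (n + (e₀ + (p - p₀))) := h6.symm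
        _ ≤ ∑ s ∈ Ico b (b + m'), ip (n + e₀) * ip (n + (e₀ + s)) :=
            Finset.single_le_sum (f := fun s => ip (n + e₀) * ip (n + (e₀ + s)))
              (fun s _ => mul_nonneg (ip_nonneg _) (ip_nonneg _))
              (by rw [mem_Ico]; omega)
        _ ≤ _ := Finset.single_le_sum (f := fun e => ∑ s ∈ Ico b (b + m'),
              ip (n + e) * ip (n + (e + s))) hN1 (by rw [mem_Ico]; omega)
    have h6 : 0 ≤ 1 / ((T : ℝ) + 1) * ∑ q ∈ Ico (a - T) (a + m), ((X (n + q) : ℝ) - 4) :=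
      mul_nonneg (by positivity) (Finset.sum_nonneg hX4)
    linarith
  · have hB : ∀ q ∈ Icc (e₀ - T) e₀, (1 : ℝ) ≤ (X (n + q) : ℝ) - 4 := by
      intro q hq
      rw [mem_Icc] at hq
      have h3 := X_before (s := p₀) (T := T) (m := n + q) hp₀ (by omega) (by omega)
        (by omega) (by omega) (fun p hp h4 h5 => hA ⟨p, hp, h4, h5⟩)
      have h4 := hX (p₀ + 1) (by omega) (by
        have h9 : ((p₀ + 1 : ℕ) : ℝ) = n + e₀ + 1 := by rw [he₀]; push_cast; ring
        rw [h9]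
        linarith)
      have h5 : 5 ≤ X (n + q) := by omega
      have h6 : (5 : ℝ) ≤ X (n + q) := by exact_mod_cast h5
      linarith
    have h3 : ((T : ℝ) + 1) ≤ ∑ q ∈ Ico (a - T) (a + m), ((X (n + q) : ℝ) - 4) := by
      have h4 : Icc (e₀ - T) e₀ ⊆ Ico (a - T) (a + m) := by
        intro q hq
        rw [mem_Icc] at hq
        rw [mem_Ico]
        omega
      calc ((T : ℝ) + 1) = ∑ q ∈ Icc (e₀ - T) e₀, (1 : ℝ) := by
            rw [Finset.sum_const, Nat.card_Icc, nsmul_eq_mul, mul_one]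
            have h5 : e₀ + 1 - (e₀ - T) = T + 1 := by omega
            rw [h5]
            push_cast
            ring
        _ ≤ ∑ q ∈ Icc (e₀ - T) e₀, ((X (n + q) : ℝ) - 4) := Finset.sum_le_sum hB
        _ ≤ _ := Finset.sum_le_sum_of_subset_of_nonneg h4 fun q hq _ => hX4 q hq
    have h5 : 1 ≤ 1 / ((T : ℝ) + 1) * ∑ q ∈ Ico (a - T) (a + m), ((X (n + q) : ℝ) - 4) := by
      rw [one_div, ← div_eq_inv_mul, le_div_iff₀ (by positivity)]
      linarith
    have h6 := Finset.sum_nonneg hN1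
    linarith

theorem pf_E3 (hEN : T_EN) : T_E3 := by
  intro H
  obtain ⟨Z, hZ0, v, D, hD, hv, hF, hDF, hD4, hX, h4, h5⟩ := hEN 3 (by omega) H (1 / 1000000)
    (1 / 1000) (Real.exp 5000000) (by norm_num) (by norm_num) (by norm_num)
  have hlog : (5000000 : ℝ) ≤ Real.log Z := by
    rw [Real.le_log_iff_exp_le (lt_of_lt_of_le (Real.exp_pos _) hZ0)]
    exact hZ0
  have hZ : (100 : ℝ) ≤ Z := by
    have h1 := Real.add_one_le_exp (5000000 : ℝ)
    linarith
  set L : ℝ := Real.log Z with hLdef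
  set F : ℝ := ∑ n ∈ Icc 1 (NX Z), v n with hFdef
  set T : ℕ := ⌊L / 1000⌋₊ with hT
  set a : ℕ := ⌈2 * L⌉₊ with ha
  set m : ℕ := ⌊L⌋₊ + 4 with hm
  set b : ℕ := ⌊L⌋₊ - T - 4 with hb
  set m' : ℕ := T + 12 with hm'
  have hfl : (⌊L⌋₊ : ℝ) ≤ L := Nat.floor_le (by linarith)
  have hfl2 : L < ⌊L⌋₊ + 1 := Nat.lt_floor_add_one _
  have hT1 : (T : ℝ) ≤ L / 1000 := Nat.floor_le (by linarith)
  have hT2 : L / 1000 < T + 1 := Nat.lt_floor_add_one _
  have ha1 : 2 * L ≤ a := Nat.le_ceil _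
  have ha2 : (a : ℝ) < 2 * L + 1 := Nat.ceil_lt_add_one (by linarith)
  have hmr : (m : ℝ) = ⌊L⌋₊ + 4 := by rw [hm]; push_cast; ring
  have hmr' : (m' : ℝ) = T + 12 := by rw [hm']; push_cast; ring
  have hTL : T + 10 ≤ ⌊L⌋₊ := by
    have : ((T + 10 : ℕ) : ℝ) < ((⌊L⌋₊ + 1 : ℕ) : ℝ) := by push_cast; linarith
    have h2 : T + 10 < ⌊L⌋₊ + 1 := by exact_mod_cast this
    omega
  have hTa : T ≤ a := by
    have : (T : ℝ) ≤ (a : ℝ) := by linarith
    exact_mod_cast this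
  have hbr : (b : ℝ) + m' = ⌊L⌋₊ + 8 := by
    have : b + m' = ⌊L⌋₊ + 8 := by omega
    exact_mod_cast this
  -- the inequality for one `n`
  have hone : ∀ n ∈ D, v n ≤
      v n * (∑ e ∈ Ico a (a + m), ∑ s ∈ Ico b (b + m'), ip (n + e) * ip (n + (e + s))) +
      1 / ((T : ℝ) + 1) * ∑ q ∈ Ico (a - T) (a + m), (v n * (X (n + q) : ℝ) - 4 * v n) := by
    intro n hn
    have h1 := one_le_pairs hlog (hD4 n hn) (mem_Icc.1 (hD hn)).2 hT ha hm hb hm' (hX n hn)
    have h2 := mul_le_mul_of_nonneg_left h1 (hv n)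
    have h3 : ∑ q ∈ Ico (a - T) (a + m), (v n * (X (n + q) : ℝ) - 4 * v n) =
        v n * ∑ q ∈ Ico (a - T) (a + m), ((X (n + q) : ℝ) - 4) := by
      rw [Finset.mul_sum]
      refine Finset.sum_congr rfl fun q _ => ?_
      ring
    rw [h3]
    linarith
  have hsum := Finset.sum_le_sum hone
  rw [Finset.sum_add_distrib, ← Finset.mul_sum, Finset.sum_comm] at hsum
  -- pairs
  have hpair : ∑ n ∈ D, v n * (∑ e ∈ Ico a (a + m), ∑ s ∈ Ico b (b + m'),
      ip (n + e) * ip (n + (e + s))) ≤ 2 / 5 * F := by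
    have h1 : ∑ n ∈ D, v n * (∑ e ∈ Ico a (a + m), ∑ s ∈ Ico b (b + m'),
        ip (n + e) * ip (n + (e + s))) ≤ ∑ n ∈ Icc 1 (NX Z), v n *
        ∑ e ∈ Ico a (a + m), ∑ s ∈ Ico b (b + m'), ip (n + e) * ip (n + (e + s)) :=
      Finset.sum_le_sum_of_subset_of_nonneg hD fun n _ _ => mul_nonneg (hv n)
        (Finset.sum_nonneg fun e _ => Finset.sum_nonneg fun s _ =>
          mul_nonneg (ip_nonneg _) (ip_nonneg _))
    have h2 := h5 a m b m' (by linarith) (by omega) (by push_cast; linarith)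
      (by push_cast; linarith) (by linarith) (by linarith)
    refine h1.trans (h2.trans ?_)
    apply mul_le_mul_of_nonneg_right _ hF.le
    have h3 : (m : ℝ) * m' ≤ 1 / 800 * L ^ 2 := by
      have h6 : (m : ℝ) ≤ 1001 / 1000 * L := by linarith
      have h7 : (m' : ℝ) ≤ 11 / 10000 * L := by linarith
      calc (m : ℝ) * m' ≤ (1001 / 1000 * L) * (11 / 10000 * L) :=
            mul_le_mul h6 h7 (Nat.cast_nonneg _) (by positivity)
        _ ≤ 1 / 800 * L ^ 2 := by nlinarith [sq_nonneg L]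
    have h8 : (m : ℝ) * m' / L ^ 2 ≤ 1 / 800 := by
      rw [div_le_iff₀ (by positivity)]
      exact h3
    linarith
  -- windows
  have hwin : ∀ q ∈ Ico (a - T) (a + m), ∑ n ∈ D, (v n * (X (n + q) : ℝ) - 4 * v n) ≤
      109 / 1000000 * F := by
    intro q hq
    rw [mem_Ico] at hq
    have hq1 : (q : ℝ) ≤ a + m := by exact_mod_cast hq.2.le
    have hq2 : (a : ℝ) - T ≤ q := by
      have : a ≤ q + T := by omega
      have h9 : (a : ℝ) ≤ q + T := by exact_mod_cast this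
      linarith
    have h6 := window_mass (κ := 1 / 1000000) (by norm_num) (by norm_num) hZ
      (by norm_num; linarith) hD hv hF (fun a' m'' => h4 a' m'') (q := q)
      (by linarith) (by linarith)
    rw [Finset.sum_sub_distrib, ← Finset.mul_sum]
    have h7 : (1 - 1 / 1000000) * F ≤ ∑ n ∈ D, v n := hDF
    have h8 : ((4 : ℝ) + 100 * (1 / 1000000)) * (1 + 1 / 1000000) * F -
        4 * ((1 - 1 / 1000000) * F) ≤ 109 / 1000000 * F := by nlinarith
    linarith
  have hwin2 : ∑ q ∈ Ico (a - T) (a + m), ∑ n ∈ D, (v n * (X (n + q) : ℝ) - 4 * v n) ≤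
      (m + T) * (109 / 1000000 * F) := by
    refine (Finset.sum_le_sum hwin).trans ?_
    rw [Finset.sum_const, Nat.card_Ico, nsmul_eq_mul]
    apply mul_le_mul_of_nonneg_right _ (by positivity)
    have h9 : a + m - (a - T) = m + T := by omega
    rw [h9]
    push_cast
    exact le_rfl
  have hwin3 : 1 / ((T : ℝ) + 1) * ∑ q ∈ Ico (a - T) (a + m),
      ∑ n ∈ D, (v n * (X (n + q) : ℝ) - 4 * v n) ≤ 1 / 5 * F := by
    have hT3 : (0 : ℝ) < T + 1 := by positivity
    calc _ ≤ 1 / ((T : ℝ) + 1) * ((m + T) * (109 / 1000000 * F)) :=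
          mul_le_mul_of_nonneg_left hwin2 (by positivity)
      _ = ((m + T) / ((T : ℝ) + 1)) * (109 / 1000000 * F) := by ring
      _ ≤ 1010 * (109 / 1000000 * F) := by
          apply mul_le_mul_of_nonneg_right _ (by positivity)
          rw [div_le_iff₀ hT3]
          nlinarith
      _ ≤ 1 / 5 * F := by nlinarith
  have h9 : (1 - 1 / 1000000) * F ≤ ∑ n ∈ D, v n := hDF
  nlinarith

end Pool.Agent.H31.MTP
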