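import Pool.Agent.H31.MTP.Win

/-!
# E4. The case `j ≥ 4` (MP_76b9e7_nt, board mtp_modules)
-/

set_option autoImplicit false

open Finset Real

namespace Pool.Agent.H31.MTP

open Pool.Agent.H31.MP
open Pool.Agent.H30.BV (NX)
open Pool.Agent.H21.PI (X gam)

/-- the measure of one window -/
lemma window_mass {κ : ℝ} (hκ : 0 < κ) (hκ1 : κ ≤ 1 / 8) {Z : ℝ} (hZ : 100 ≤ Z)
    (hL : 5 / κ ≤ Real.log Z) {v : ℕ → ℝ} {D : Finset ℕ} (hD : D ⊆ Icc 1 (NX Z))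
    (hv : ∀ n, 0 ≤ v n) (hF : 0 < ∑ n ∈ Icc 1 (NX Z), v n)
    (h4 : ∀ a m : ℕ, κ * Real.log Z < a → ((a + m : ℕ) : ℝ) ≤ 10 * Real.log Z →
      1 / 1000 * Real.log Z ≤ m →
      ∑ n ∈ Icc 1 (NX Z), v n * ∑ e ∈ Ico a (a + m), ip (n + e) ≤
        (4 + 100 * κ) * (m / Real.log Z) * ∑ n ∈ Icc 1 (NX Z), v n)
    {q : ℕ} (hq : κ * Real.log Z < q) (hq1 : (q : ℝ) ≤ 8 * Real.log Z) :
    ∑ n ∈ D, v n * (X (n + q) : ℝ) ≤ (4 + 100 * κ) * (1 + κ) * ∑ n ∈ Icc 1 (NX Z), v n := by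
  have hL0 : (40 : ℝ) ≤ Real.log Z := by
    refine le_trans ?_ hL
    rw [le_div_iff₀ hκ]
    linarith
  have hfl : (⌊Real.log Z⌋₊ : ℝ) ≤ Real.log Z := Nat.floor_le (by linarith)
  have hfl2 : Real.log Z < ⌊Real.log Z⌋₊ + 1 := Nat.lt_floor_add_one _
  have h5 := h4 q (⌊Real.log Z⌋₊ + 4) hq (by push_cast; linarith) (by push_cast; linarith)
  have h6 : ∑ n ∈ D, v n * (X (n + q) : ℝ) ≤
      ∑ n ∈ Icc 1 (NX Z), v n * ∑ e ∈ Ico q (q + (⌊Real.log Z⌋₊ + 4)), ip (n + e) := by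
    refine (Finset.sum_le_sum fun n hn => ?_).trans
      (Finset.sum_le_sum_of_subset_of_nonneg hD fun n _ _ =>
        mul_nonneg (hv n) (Finset.sum_nonneg fun e _ => ip_nonneg _))
    have hn1 := mem_Icc.1 (hD hn)
    exact mul_le_mul_of_nonneg_left (X_window hZ hn1.2 (by linarith) hn1.1) (hv n)
  refine h6.trans (h5.trans ?_)
  apply mul_le_mul_of_nonneg_right _ hF.le
  apply mul_le_mul_of_nonneg_left _ (by linarith)
  rw [div_le_iff₀ (by linarith)]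
  push_cast
  have h7 : 5 ≤ κ * Real.log Z := by
    rw [div_le_iff₀ hκ] at hL
    linarith
  nlinarith

theorem pf_E4 (hEN : T_EN) : T_E4 := by
  intro j hj H
  obtain ⟨Z, hZ0, v, D, hD, hv, hF, hDF, -, hX, h4, -⟩ := hEN j (by omega) H (1 / 1000) (1 / 1000)
    (Real.exp 5000) (by norm_num) (by norm_num) (by norm_num)
  have hlog : (5000 : ℝ) ≤ Real.log Z := by
    rw [Real.le_log_iff_exp_le (lt_of_lt_of_le (Real.exp_pos _) hZ0)]
    exact hZ0
  have hZ : (100 : ℝ) ≤ Z := by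
    have h1 := Real.add_one_le_exp (5000 : ℝ)
    linarith
  set a : ℕ := ⌈Real.log Z⌉₊ with ha
  have ha1 : Real.log Z ≤ a := Nat.le_ceil _
  have ha2 : (a : ℝ) < Real.log Z + 1 := Nat.ceil_lt_add_one (by linarith)
  have h6 := window_mass (by norm_num) (by norm_num) hZ (by norm_num; linarith) hD hv hF
    (fun a' m' => h4 a' m') (q := a) (by linarith) (by linarith)
  have h7 : 5 * ∑ n ∈ D, v n ≤ ∑ n ∈ D, v n * (X (n + a) : ℝ) := by
    rw [Finset.mul_sum]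
    refine Finset.sum_le_sum fun n hn => ?_
    have h8 := hX n hn (n + a) (by omega) (by push_cast; linarith)
    have h9 : (5 : ℝ) ≤ X (n + a) := by
      have : 5 ≤ X (n + a) := by omega
      exact_mod_cast this
    nlinarith [hv n]
  nlinarith

end Pool.Agent.H31.MTP
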