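import Pool.Agent.H31.MP.Basic

/-!
# FI. The theorem (MP_76b9e7_nt, board mtp_modules)
-/

set_option autoImplicit false

namespace Pool.Agent.H31.MTP

open Pool.Agent.H31.MP
open Pool.Agent.H21.PI (X gam)

theorem pf_FI (hE4 : T_E4) (hE3 : T_E3) : T_FI := by
  intro j hj
  by_contra h
  push Not at h
  have H : ∀ c : ℝ, 0 < c → ∀ n₀ : ℕ, ∃ n : ℕ, n₀ ≤ n ∧ gam j n < c := fun c hc n₀ => h c hc n₀
  rcases Nat.lt_or_ge 3 j with h4 | h4
  · exact hE4 j h4 H
  · have h3 : j = 3 := by omega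
    subst h3
    exact hE3 H

end Pool.Agent.H31.MTP
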