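import Pool.Agent.H31.MTP.M2

/-!
# M1. Simple properties of the measure (MP_76b9e7_nt, board mtp_modules)
-/

set_option autoImplicit false

open Finset Real ArithmeticFunction

namespace Pool.Agent.H31.MTP

open Pool.Agent.H31.MP
open Pool.Agent.H30.BV (NX wx WX)
open Pool.Agent.H27.LS (hat hat_nonneg hat_le_one abs_lt_one_of_hat_ne_zero)

lemma wx_nonneg (Z : ℝ) (m : ℕ) : 0 ≤ wx Z m := by
  unfold wx
  exact mul_nonneg vonMangoldt_nonneg (hat_nonneg _)

lemma wp_nonneg {Z : ℝ} (hZ : 1 ≤ Z) (m : ℕ) : 0 ≤ wp Z m := by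
  unfold wp
  split_ifs
  · exact div_nonneg (wx_nonneg _ _) (Real.log_nonneg hZ)
  · exact le_rfl

/-- the support of the weight -/
lemma wx_supp {Z : ℝ} (hZ : 1 ≤ Z) {m : ℕ} (h : wx Z m ≠ 0) :
    Z ≤ 3 * m ∧ Real.log m ≤ Real.log Z + 1 ∧ 1 ≤ m := by
  unfold wx at h
  have h1 : hat (Real.log (m / Z)) ≠ 0 := right_ne_zero_of_mul h
  have h2 : Λ m ≠ 0 := left_ne_zero_of_mul h
  have hm : 1 ≤ m := by
    rcases Nat.eq_zero_or_pos m with rfl | hm
    · simp at h2
    · exact hm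
  have hmr : (0 : ℝ) < m := by exact_mod_cast hm
  have h3 := abs_lt_one_of_hat_ne_zero h1
  have h4 : Real.log (m / Z) = Real.log m - Real.log Z :=
    Real.log_div hmr.ne' (by linarith)
  rw [h4, abs_lt] at h3
  refine ⟨?_, by linarith, hm⟩
  have h5 : Real.log Z ≤ Real.log (3 * m) := by
    rw [Real.log_mul (by norm_num) hmr.ne']
    have h6 : (1 : ℝ) ≤ Real.log 3 := by
      rw [Real.le_log_iff_exp_le (by norm_num)]
      have := Real.exp_one_lt_d9
      linarith
    linarith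
  exact (Real.log_le_log_iff (by linarith) (by positivity)).1 h5

lemma wp_le {Z : ℝ} (hZ : 1 ≤ Real.log Z) (hZ1 : 1 ≤ Z) (m : ℕ) : wp Z m ≤ 2 * ip m := by
  unfold wp ip
  split_ifs with hm
  · rw [mul_one, div_le_iff₀ (by linarith)]
    by_cases h : wx Z m = 0
    · rw [h]
      linarith
    · have h1 := (wx_supp hZ1 h).2.1
      unfold wx
      calc Λ m * hat (Real.log (m / Z)) ≤ Λ m * 1 :=
            mul_le_mul_of_nonneg_left (hat_le_one _) vonMangoldt_nonneg
        _ ≤ Real.log m := by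
            rw [mul_one]
            exact vonMangoldt_le_log
        _ ≤ 2 * Real.log Z := by linarith
  · norm_num

theorem pf_M1 : T_M1 := by
  classical
  intro κ hκ hκ1
  refine ⟨Real.exp 1, fun Z M δ k y₀ l hZ0 hT H => ?_⟩
  have hZ1 : 1 ≤ Real.log Z := by
    rw [Real.le_log_iff_exp_le (lt_of_lt_of_le (Real.exp_pos _) hZ0)]
    exact hZ0
  have hZ : 1 ≤ Z := by
    have := Real.add_one_le_exp (1 : ℝ)
    linarith
  have hTi : 0 ≤ (Tn Z y₀ δ κ l)⁻¹ := (inv_pos.2 hT).le
  have hHH : ∀ h ∈ HH k y₀ (κ * Real.log Z), (∀ i, h i ≤ ⌊κ * Real.log Z⌋₊) ∧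
      Function.Injective h := by
    intro h hh
    unfold HH at hh
    rw [mem_filter, Fintype.mem_piFinset] at hh
    refine ⟨fun i => ?_, hh.2⟩
    have := (mem_filter.1 (hh.1 i)).1
    rw [mem_range] at this
    omega
  refine ⟨fun n => ?_, fun n => ?_, ?_, fun n _ => ?_, ?_, fun n hn => ?_⟩
  · unfold wm
    refine mul_nonneg hTi (Finset.sum_nonneg fun h _ => ?_)
    split_ifs
    · exact sq_nonneg _
    · exact le_rfl
  · unfold vm
    refine mul_nonneg hTi (Finset.sum_nonneg fun h _ => Finset.sum_nonneg fun i _ => ?_)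
    split_ifs
    · exact mul_nonneg (wp_nonneg hZ _) (sq_nonneg _)
    · exact le_rfl
  · unfold wm
    rw [← Finset.mul_sum, Finset.sum_comm, ← div_eq_inv_mul, div_le_one hT]
    unfold Tn
    refine Finset.sum_le_sum fun h hh => le_trans (le_of_eq ?_) (H h hh).1
    rw [← Finset.sum_filter]
    refine Finset.sum_congr ?_ fun _ _ => rfl
    ext n
    rw [mem_filter]
    exact ⟨fun h1 => h1.2, fun h1 => ⟨Omr_subset _ _ _ _ h1, h1⟩⟩
  · unfold vm wm
    rw [show (2 : ℝ) * ((Tn Z y₀ δ κ l)⁻¹ * ∑ h ∈ HH k y₀ (κ * Real.log Z),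
        if n ∈ Omr Z y₀ (Z ^ δ) h then Lam (Z ^ δ) (Z ^ (κ / 4)) l h n ^ 2 else 0) *
        ∑ m ∈ Icc n (n + ⌊κ * Real.log Z⌋₊), ip m = (Tn Z y₀ δ κ l)⁻¹ *
        ((∑ h ∈ HH k y₀ (κ * Real.log Z),
        if n ∈ Omr Z y₀ (Z ^ δ) h then Lam (Z ^ δ) (Z ^ (κ / 4)) l h n ^ 2 else 0) *
        (2 * ∑ m ∈ Icc n (n + ⌊κ * Real.log Z⌋₊), ip m)) by ring]
    apply mul_le_mul_of_nonneg_left _ hTi
    rw [Finset.sum_mul]
    refine Finset.sum_le_sum fun h hh => ?_
    split_ifs with hn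
    · rw [← Finset.sum_mul, mul_comm (Lam (Z ^ δ) (Z ^ (κ / 4)) l h n ^ 2)]
      apply mul_le_mul_of_nonneg_right _ (sq_nonneg _)
      have h1 : ∑ i, ip (n + h i) ≤ ∑ m ∈ Icc n (n + ⌊κ * Real.log Z⌋₊), ip m := by
        have hinj : Function.Injective fun i => n + h i := fun i j hij =>
          (hHH h hh).2 (by simpa using hij)
        rw [← Finset.sum_image (f := fun m => ip m) (g := fun i => n + h i)
          (fun i _ j _ hij => hinj hij)]
        refine Finset.sum_le_sum_of_subset_of_nonneg ?_ fun m _ _ => by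
          unfold ip
          split_ifs <;> norm_num
        intro m hm
        rw [mem_image] at hm
        obtain ⟨i, -, rfl⟩ := hm
        rw [mem_Icc]
        have := (hHH h hh).1 i
        omega
      calc ∑ i, wp Z (n + h i) ≤ ∑ i, 2 * ip (n + h i) :=
            Finset.sum_le_sum fun i _ => wp_le hZ1 hZ _
        _ = 2 * ∑ i, ip (n + h i) := by rw [Finset.mul_sum]
        _ ≤ _ := by linarith
    · simp
  · rw [sum_vm_one, ← div_eq_inv_mul, le_div_iff₀ hT]
    unfold Tn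
    rw [Finset.mul_sum]
    exact Finset.sum_le_sum fun h hh => (H h hh).2
  · unfold vm at hn
    have h1 := right_ne_zero_of_mul hn
    obtain ⟨h, hh, h2⟩ := Finset.exists_ne_zero_of_sum_ne_zero h1
    obtain ⟨i, -, h3⟩ := Finset.exists_ne_zero_of_sum_ne_zero h2
    have h4 : wp Z (n + h i) ≠ 0 := by
      intro h5
      apply h3
      rw [h5]
      simp
    have h5 : wx Z (n + h i) ≠ 0 := by
      intro h6
      apply h4
      unfold wp
      rw [h6]
      simp
    have h6 := (wx_supp hZ h5).1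
    have h7 : (h i : ℝ) ≤ κ * Real.log Z := by
      have h8 : (h i : ℝ) ≤ (⌊κ * Real.log Z⌋₊ : ℝ) := by exact_mod_cast (hHH h hh).1 i
      exact h8.trans (Nat.floor_le (by positivity))
    have h9 : Real.log Z ≤ Z / 2 := by
      have h10 : Real.log (Z / 2) ≤ Z / 2 - 1 := Real.log_le_sub_one_of_pos (by linarith)
      rw [Real.log_div (by linarith) (by norm_num)] at h10
      have h11 : Real.log 2 ≤ 1 := by
        have := Real.log_two_lt_d9
        linarith
      linarith
    push_cast at h6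
    have h12 : κ * Real.log Z ≤ 1 / 8 * (Z / 2) :=
      mul_le_mul hκ1 h9 (by linarith) (by norm_num)
    linarith

end Pool.Agent.H31.MTP
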