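import Pool.Agent.H31.MP.Basic

/-!
# M2. Further primes under the measure (MP_76b9e7_nt, board mtp_modules)
-/

set_option autoImplicit false

open Finset Real

namespace Pool.Agent.H31.MTP

open Pool.Agent.H31.MP
open Pool.Agent.H30.BV (NX wx WX)

lemma Omr_subset {k : ℕ} (Z : ℝ) (y₀ : ℕ) (z : ℝ) (h : Fin k → ℕ) :
    Omr Z y₀ z h ⊆ Icc 1 (NX Z) := by
  classical
  intro n hn
  unfold Omr Om at hn
  exact (mem_filter.1 (mem_filter.1 hn).1).1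

open Classical in
/-- exchange of the sums -/
lemma sum_vm {k : ℕ} (Z : ℝ) (y₀ : ℕ) (δ κ : ℝ) (l : (Fin k → ℕ) → ℝ) (f : ℕ → ℝ) :
    ∑ n ∈ Icc 1 (NX Z), vm Z y₀ δ κ l n * f n =
      (Tn Z y₀ δ κ l)⁻¹ * ∑ h ∈ HH k y₀ (κ * Real.log Z), ∑ i,
        ∑ n ∈ Omr Z y₀ (Z ^ δ) h,
          wp Z (n + h i) * Lam (Z ^ δ) (Z ^ (κ / 4)) l h n ^ 2 * f n := by
  unfold vm
  have h1 : ∀ n ∈ Icc 1 (NX Z), (Tn Z y₀ δ κ l)⁻¹ * (∑ h ∈ HH k y₀ (κ * Real.log Z), ∑ i,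
      if n ∈ Omr Z y₀ (Z ^ δ) h then
        wp Z (n + h i) * Lam (Z ^ δ) (Z ^ (κ / 4)) l h n ^ 2 else 0) * f n =
      (Tn Z y₀ δ κ l)⁻¹ * ∑ h ∈ HH k y₀ (κ * Real.log Z), ∑ i,
      if n ∈ Omr Z y₀ (Z ^ δ) h then
        wp Z (n + h i) * Lam (Z ^ δ) (Z ^ (κ / 4)) l h n ^ 2 * f n else 0 := by
    intro n _
    rw [mul_assoc, Finset.sum_mul]
    congr 1
    refine Finset.sum_congr rfl fun h _ => ?_
    rw [Finset.sum_mul]
    refine Finset.sum_congr rfl fun i _ => ?_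
    rw [ite_mul, zero_mul]
  rw [Finset.sum_congr rfl h1, ← Finset.mul_sum, Finset.sum_comm]
  congr 1
  refine Finset.sum_congr rfl fun h _ => ?_
  rw [Finset.sum_comm]
  refine Finset.sum_congr rfl fun i _ => ?_
  rw [← Finset.sum_filter]
  refine Finset.sum_congr ?_ fun _ _ => rfl
  ext n
  rw [mem_filter]
  exact ⟨fun h1 => h1.2, fun h1 => ⟨Omr_subset _ _ _ _ h1, h1⟩⟩

lemma sum_vm_one {k : ℕ} (Z : ℝ) (y₀ : ℕ) (δ κ : ℝ) (l : (Fin k → ℕ) → ℝ) :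
    ∑ n ∈ Icc 1 (NX Z), vm Z y₀ δ κ l n =
      (Tn Z y₀ δ κ l)⁻¹ * ∑ h ∈ HH k y₀ (κ * Real.log Z), ∑ i,
        S2 Z y₀ (Z ^ δ) (Z ^ (κ / 4)) l h i := by
  have h1 := sum_vm Z y₀ δ κ l (fun _ => 1)
  simp only [mul_one] at h1
  rw [h1]
  rfl

theorem pf_M2 : T_M2 := by
  intro Z R δ κ k y₀ l J J' hT
  have hTi : 0 ≤ (Tn Z y₀ δ κ l)⁻¹ := (inv_pos.2 hT).le
  refine ⟨fun H => ?_, fun H => ?_⟩
  · rw [sum_vm, sum_vm_one, mul_left_comm]
    apply mul_le_mul_of_nonneg_left _ hTi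
    rw [Finset.mul_sum]
    refine Finset.sum_le_sum fun h hh => le_trans (le_of_eq ?_) (H h hh)
    rw [Finset.sum_comm (s := J)]
    refine Finset.sum_congr rfl fun i _ => ?_
    unfold S3
    rw [Finset.sum_comm (s := J)]
    refine Finset.sum_congr rfl fun n _ => ?_
    rw [Finset.mul_sum]
    refine Finset.sum_congr rfl fun e _ => ?_
    ring
  · rw [sum_vm, sum_vm_one, mul_left_comm]
    apply mul_le_mul_of_nonneg_left _ hTi
    rw [Finset.mul_sum]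
    refine Finset.sum_le_sum fun h hh => le_trans (le_of_eq ?_) (H h hh)
    have h2 : ∀ i, ∑ n ∈ Omr Z y₀ (Z ^ δ) h,
        wp Z (n + h i) * Lam (Z ^ δ) (Z ^ (κ / 4)) l h n ^ 2 *
          ∑ e ∈ J, ∑ s ∈ J', ip (n + e) * ip (n + (e + s)) =
        ∑ e ∈ J, ∑ s ∈ J', S4 Z y₀ (Z ^ δ) (Z ^ (κ / 4)) l h i e (e + s) := by
      intro i
      unfold S4
      have h3 : ∀ e ∈ J, ∑ s ∈ J', ∑ n ∈ Omr Z y₀ (Z ^ δ) h,
          wp Z (n + h i) * (ip (n + e) * ip (n + (e + s))) *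
            Lam (Z ^ δ) (Z ^ (κ / 4)) l h n ^ 2 =
          ∑ n ∈ Omr Z y₀ (Z ^ δ) h, ∑ s ∈ J',
          wp Z (n + h i) * (ip (n + e) * ip (n + (e + s))) *
            Lam (Z ^ δ) (Z ^ (κ / 4)) l h n ^ 2 := fun e _ => Finset.sum_comm
      rw [Finset.sum_congr rfl h3, Finset.sum_comm (s := J)]
      refine Finset.sum_congr rfl fun n _ => ?_
      rw [Finset.mul_sum]
      refine Finset.sum_congr rfl fun e _ => ?_
      rw [Finset.mul_sum]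
      refine Finset.sum_congr rfl fun s _ => ?_
      ring
    rw [Finset.sum_congr rfl fun i _ => h2 i, Finset.sum_comm (t := J)]
    refine Finset.sum_congr rfl fun e _ => ?_
    rw [Finset.sum_comm]

end Pool.Agent.H31.MTP
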