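import Pool.Agent.H31.MP.Basic

/-!
# Windows: an upper bound for the number of primes (rows E3, E4 of mtp_modules)
-/

set_option autoImplicit false

open Finset Real

namespace Pool.Agent.H31.MTP

open Pool.Agent.H31.MP
open Pool.Agent.H30.BV (NX)
open Pool.Agent.H21.PI (X gam)

lemma ip_nonneg (m : ℕ) : 0 ≤ ip m := by
  unfold ip
  split_ifs <;> norm_num

lemma sum_ip (s : Finset ℕ) (n : ℕ) :
    ∑ e ∈ s, ip (n + e) = ((s.filter (fun e => (n + e).Prime)).card : ℝ) := by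
  unfold ip
  rw [← Finset.sum_filter, Finset.sum_const, nsmul_eq_mul, mul_one]

/-- numbers up to `NX Z + 10 log Z` have a small logarithm -/
lemma log_le_of_le {Z : ℝ} (hZ : 100 ≤ Z) {n q : ℕ} (hn : n ≤ NX Z)
    (hq : (q : ℝ) ≤ 10 * Real.log Z) (hn1 : 1 ≤ n) :
    Real.log ((n + q : ℕ) : ℝ) ≤ Real.log Z + 2 := by
  have h0 : 0 < Z := by linarith
  have h1 : (n : ℝ) ≤ 3 * Z + 1 := by
    have h2 : (n : ℝ) ≤ NX Z := by exact_mod_cast hn
    have h3 : (NX Z : ℝ) < 3 * Z + 1 := by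
      unfold NX
      exact Nat.ceil_lt_add_one (by positivity)
    linarith
  have h4 : Real.log Z ≤ Z / 5 := by
    have h5 := Real.add_one_le_exp (Z / 5 - 1)
    have h6 : Real.log Z = 2 * Real.log (√Z) := by
      rw [Real.log_sqrt h0.le]
      ring
    have h7 : Real.log (√Z) ≤ √Z - 1 := Real.log_le_sub_one_of_pos (Real.sqrt_pos.2 h0)
    have h8 : √Z * √Z = Z := Real.mul_self_sqrt h0.le
    have h9 : 10 ≤ √Z := by
      rw [show (10 : ℝ) = √100 by rw [show (100 : ℝ) = 10 ^ 2 by norm_num,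
        Real.sqrt_sq (by norm_num)]]
      exact Real.sqrt_le_sqrt hZ
    nlinarith
  have h10 : ((n + q : ℕ) : ℝ) ≤ Real.exp 2 * Z := by
    push_cast
    have h11 : (7.38 : ℝ) ≤ Real.exp 2 := by
      have h12 := Real.exp_one_gt_d9
      have h13 : Real.exp 2 = Real.exp 1 * Real.exp 1 := by
        rw [← Real.exp_add]
        norm_num
      rw [h13]
      nlinarith
    nlinarith
  have h14 : (0 : ℝ) < ((n + q : ℕ) : ℝ) := by
    have : 0 < n + q := by omega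
    exact_mod_cast this
  calc Real.log ((n + q : ℕ) : ℝ) ≤ Real.log (Real.exp 2 * Z) := Real.log_le_log h14 h10
    _ = Real.log Z + 2 := by
      rw [Real.log_mul (Real.exp_pos 2).ne' h0.ne', Real.log_exp]
      ring

lemma floor_log_le {Z : ℝ} (hZ : 100 ≤ Z) {n q : ℕ} (hn : n ≤ NX Z)
    (hq : (q : ℝ) ≤ 10 * Real.log Z) (hn1 : 1 ≤ n) :
    ⌊Real.log ((n + q : ℕ) : ℝ)⌋₊ ≤ ⌊Real.log Z⌋₊ + 2 := by
  have h1 := log_le_of_le hZ hn hq hn1
  have h2 : (0 : ℝ) ≤ Real.log Z := Real.log_nonneg (by linarith)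
  calc ⌊Real.log ((n + q : ℕ) : ℝ)⌋₊ ≤ ⌊Real.log Z + 2⌋₊ := Nat.floor_mono h1
    _ = ⌊Real.log Z⌋₊ + 2 := by
      have := Nat.floor_add_natCast h2 2
      exact_mod_cast this

/-- the window -/
lemma X_window {Z : ℝ} (hZ : 100 ≤ Z) {n q : ℕ} (hn : n ≤ NX Z)
    (hq : (q : ℝ) ≤ 10 * Real.log Z) (hn1 : 1 ≤ n) :
    (X (n + q) : ℝ) ≤ ∑ e ∈ Ico q (q + (⌊Real.log Z⌋₊ + 4)), ip (n + e) := by
  rw [sum_ip]
  have h1 := floor_log_le hZ hn hq hn1
  unfold X
  norm_cast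
  rw [← card_map (addLeftEmbedding n)
    (s := (Ico q (q + (⌊Real.log Z⌋₊ + 4))).filter (fun e => (n + e).Prime))]
  apply card_le_card
  intro p hp
  rw [mem_filter, mem_Icc] at hp
  rw [Finset.mem_map]
  refine ⟨p - n, ?_, ?_⟩
  · rw [mem_filter, mem_Ico]
    have h3 : n + (p - n) = p := by omega
    rw [h3]
    exact ⟨⟨by omega, by omega⟩, hp.2⟩
  · rw [addLeftEmbedding_apply]
    omega

end Pool.Agent.H31.MTP
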